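import Mathlib
import Pool.Agent.W516.MTH.Stm

set_option autoImplicit false

namespace Pool.Agent.W768.MTH
open Pool.Agent.W516.MTH

section
variable {I V : Type} [Fintype I] [AddCommGroup V] [Module ℚ V] (P : I → Prop)

open Classical in
/-- relations supported on `P` -/
noncomputable def Ph (v : I → V) : ({k // P k} → ℚ) →ₗ[ℚ] V :=
  Fintype.linearCombination ℚ (fun k : {k // P k} => v k)

open Classical in
theorem Ph_apply (v : I → V) (c : {k // P k} → ℚ) : Ph P v c = ∑ k, c k • v k := by
  unfold Ph
  rw [Fintype.linearCombination_apply]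

open Classical in
theorem range_Ph (v : I → V) :
    LinearMap.range (Ph P v) = Submodule.span ℚ {z : V | ∃ k, P k ∧ z = v k} := by
  unfold Ph
  rw [Fintype.range_linearCombination]
  congr 1
  ext z
  constructor
  · rintro ⟨⟨k, hk⟩, rfl⟩
    exact ⟨k, hk, rfl⟩
  · rintro ⟨k, hk, rfl⟩
    exact ⟨⟨k, hk⟩, rfl⟩

open Classical in
theorem sum_ext (v : I → V) (c : {k // P k} → ℚ) :
    ∑ k, (if h : P k then c ⟨k, h⟩ else 0) • v k = ∑ k : {k // P k}, c k • v k := by
  have h1 : ∑ k, (if h : P k then c ⟨k, h⟩ else 0) • v k =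
      ∑ k ∈ Finset.univ.filter P, (if h : P k then c ⟨k, h⟩ else 0) • v k := by
    symm
    apply Finset.sum_filter_of_ne
    intro k _ hne
    by_contra h
    apply hne
    rw [dif_neg h, zero_smul]
  rw [h1, Finset.sum_subtype (p := P) (Finset.univ.filter P) (by simp)]
  refine Finset.sum_congr rfl fun k _ => ?_
  rw [dif_pos k.2]

theorem ker_le_iff {W : Type} [AddCommGroup W] [Module ℚ W] (v : I → V) (w : I → W) :
    LinearMap.ker (Ph P v) ≤ LinearMap.ker (Ph P w) ↔
      ∀ c : I → ℚ, (∀ k, c k ≠ 0 → P k) → ∑ k, c k • v k = 0 → ∑ k, c k • w k = 0 := by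
  classical
  constructor
  · intro h c hc hv
    have key : ∀ {U : Type} [AddCommGroup U] [Module ℚ U] (x : I → U),
        Ph P x (fun k => c k) = ∑ k, c k • x k := by
      intro U _ _ x
      rw [Ph_apply, ← sum_ext P x (fun k => c k)]
      refine Finset.sum_congr rfl fun k _ => ?_
      by_cases hk : P k
      · rw [dif_pos hk]
      · rw [dif_neg hk]
        by_cases h0 : c k = 0
        · rw [h0]
        · exact absurd (hc k h0) hk
    have h1 : (fun k : {k // P k} => c k) ∈ LinearMap.ker (Ph P v) := by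
      rw [LinearMap.mem_ker, key, hv]
    have h2 := h h1
    rwa [LinearMap.mem_ker, key] at h2
  · intro h c hc
    rw [LinearMap.mem_ker, Ph_apply] at hc ⊢
    rw [← sum_ext] at hc ⊢
    refine h _ ?_ hc
    intro k hk
    by_contra hP
    exact hk (dif_neg hP)

end

theorem T_DIM : Pool.Agent.W516.MTH.StDim := by
  intro I V W _ _ _ _ _ P v w hyp
  classical
  have hle : LinearMap.ker (Ph P w) ≤ LinearMap.ker (Ph P v) := (ker_le_iff P w v).2 hyp
  rw [← range_Ph P v, ← range_Ph P w, ← ker_le_iff P v w]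
  have e1 := LinearMap.finrank_range_add_finrank_ker (Ph P v)
  have e2 := LinearMap.finrank_range_add_finrank_ker (Ph P w)
  constructor
  · intro h
    have h3 : Module.finrank ℚ (LinearMap.ker (Ph P w)) =
        Module.finrank ℚ (LinearMap.ker (Ph P v)) := by omega
    exact (Submodule.eq_of_le_of_finrank_eq hle h3).ge
  · intro h
    have h3 := le_antisymm h hle
    rw [h3] at e1
    omega

end Pool.Agent.W768.MTH
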